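import Pool.Agent.U174.AO.Stm

/-!
# Project AO, package BAS: basic properties of formulas
-/

set_option autoImplicit false

namespace Pool.Agent.U94.AO

open Pool.Agent.U174.AO

theorem ren_holds {ι K : Type} [CommRing K] (Q : ι → Set K) {n : ℕ} (φ : Fm ι n) :
    ∀ (m : ℕ) (f : Fin n → Fin m) (x : Fin m → K),
      (φ.ren f).Holds Q x ↔ φ.Holds Q (fun i => x (f i)) := by
  induction φ with
  | zero p =>
    intro m f x
    change MvPolynomial.aeval x (MvPolynomial.rename f p) = 0 ↔ MvPolynomial.aeval (fun i => x (f i)) p = 0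
    rw [MvPolynomial.aeval_rename]
    rfl
  | pred i p =>
    intro m f x
    change MvPolynomial.aeval x (MvPolynomial.rename f p) ∈ Q i ↔
      MvPolynomial.aeval (fun i => x (f i)) p ∈ Q i
    rw [MvPolynomial.aeval_rename]
    rfl
  | not φ ih =>
    intro m f x
    exact not_congr (ih m f x)
  | and φ ψ ih1 ih2 =>
    intro m f x
    exact and_congr (ih1 m f x) (ih2 m f x)
  | @ex n φ ih =>
    intro m f x
    change (∃ y : K, (φ.ren (Fin.cons (α := fun _ : Fin (n + 1) => Fin (m + 1)) 0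
      (fun i => (f i).succ))).Holds Q (Fin.cons y x)) ↔ ∃ y : K, φ.Holds Q (Fin.cons y fun i => x (f i))
    refine exists_congr fun y => ?_
    rw [ih]
    have h : (fun i : Fin (n + 1) => (Fin.cons y x : Fin (m + 1) → K)
        ((Fin.cons (α := fun _ : Fin (n + 1) => Fin (m + 1)) 0 (fun i => (f i).succ)) i)) =
        Fin.cons y (fun i => x (f i)) := by
      funext i
      refine Fin.cases ?_ (fun i => ?_) i
      · rw [Fin.cons_zero, Fin.cons_zero, Fin.cons_zero]
      · rw [Fin.cons_succ, Fin.cons_succ, Fin.cons_succ]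
    rw [h]

theorem lift_holds {ι K : Type} [CommRing K] (Q : ι → Set K) {n : ℕ} (φ : Fm Empty n) :
    ∀ x : Fin n → K, (φ.lift : Fm ι n).Holds Q x ↔ φ.Holds (noQ K) x := by
  induction φ with
  | zero p => intro x; exact Iff.rfl
  | pred i p => exact i.elim
  | not φ ih => intro x; exact not_congr (ih x)
  | and φ ψ ih1 ih2 => intro x; exact and_congr (ih1 x) (ih2 x)
  | ex φ ih => intro x; exact exists_congr fun y => ih _

/-- the depth of a formula -/
def dp {ι : Type} : {n : ℕ} → Fm ι n → ℕ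
  | _, .zero _ => 0
  | _, .pred _ _ => 0
  | _, .not φ => dp φ + 1
  | _, .and φ ψ => max (dp φ) (dp ψ) + 1
  | _, .ex φ => dp φ + 1

theorem cnt_dp {ι : Type} [Countable ι] (k : ℕ) : ∀ n : ℕ, {φ : Fm ι n | dp φ < k}.Countable := by
  induction k with
  | zero =>
    intro n
    have h : {φ : Fm ι n | dp φ < 0} = ∅ := by
      ext φ
      simp
    rw [h]
    exact Set.countable_empty
  | succ k ih =>
    intro n
    have : Countable (MvPolynomial (Fin n) ℤ) := by
      rw [← Cardinal.mk_le_aleph0_iff]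
      refine MvPolynomial.cardinalMk_le_max.trans ?_
      simp
    have h1 : (Set.range (Fm.zero : MvPolynomial (Fin n) ℤ → Fm ι n)).Countable :=
      Set.countable_range _
    have h2 : (Set.range (fun ip : ι × MvPolynomial (Fin n) ℤ => (Fm.pred ip.1 ip.2 : Fm ι n))).Countable :=
      Set.countable_range _
    have h3 : ((fun φ : Fm ι n => Fm.not φ) '' {φ : Fm ι n | dp φ < k}).Countable := (ih n).image _
    have h4 : (Set.image2 (fun φ ψ : Fm ι n => Fm.and φ ψ) {φ : Fm ι n | dp φ < k}
      {φ : Fm ι n | dp φ < k}).Countable := (ih n).image2 (ih n) _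
    have h5 : ((fun φ : Fm ι (n + 1) => Fm.ex φ) '' {φ : Fm ι (n + 1) | dp φ < k}).Countable :=
      (ih (n + 1)).image _
    refine ((((h1.union h2).union h3).union h4).union h5).mono ?_
    intro φ hφ
    cases φ with
    | zero p => exact Or.inl (Or.inl (Or.inl (Or.inl ⟨p, rfl⟩)))
    | pred i p => exact Or.inl (Or.inl (Or.inl (Or.inr ⟨(i, p), rfl⟩)))
    | not φ =>
      have h : dp φ + 1 < k + 1 := hφ
      exact Or.inl (Or.inl (Or.inr ⟨φ, Nat.lt_of_succ_lt_succ h, rfl⟩))
    | and φ ψ =>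
      have h : max (dp φ) (dp ψ) + 1 < k + 1 := hφ
      have h' : max (dp φ) (dp ψ) < k := Nat.lt_of_succ_lt_succ h
      exact Or.inl (Or.inr ⟨φ, (le_max_left _ _).trans_lt h', ψ, (le_max_right _ _).trans_lt h', rfl⟩)
    | ex φ =>
      have h : dp φ + 1 < k + 1 := hφ
      exact Or.inr ⟨φ, Nat.lt_of_succ_lt_succ h, rfl⟩

theorem t_BAS : S_BAS := by
  refine ⟨fun ι K _ Q n m f φ x => ren_holds Q φ m f x, fun ι K _ Q n φ x => lift_holds Q φ x,
    fun ι _ n => ?_⟩
  have h : (Set.univ : Set (Fm ι n)).Countable := by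
    have h1 : (Set.univ : Set (Fm ι n)) = ⋃ k : ℕ, {φ : Fm ι n | dp φ < k} := by
      ext φ
      simp only [Set.mem_univ, Set.mem_iUnion, true_iff]
      exact ⟨dp φ + 1, Nat.lt_succ_self _⟩
    rw [h1]
    exact Set.countable_iUnion fun k => cnt_dp k n
  exact Set.countable_univ_iff.1 h

end Pool.Agent.U94.AO
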